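import Pool.Agent.Y580.D7

/-!
# The well-foundedness principle for chains of surjections does not imply the axiom of choice

There is a model of ZF in which the principle WF^s_{s4} holds and the axiom of choice fails. The
first half of the theorem is proved outright, the second half gives such a model from every model
of ZF in which every set has a well-order.
-/

namespace Pool.Agent.Results.MP_a078ad_lc.WFss4NotAC

open FirstOrder FirstOrder.Language
open Pool.Agent.Helper672.Plain (LSet)
open Pool.Agent.H635Amen (ZF)
open Pool.Agent.H310NAS (WO)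
open Pool.Agent.Y580S (WF4 AC)

universe u

theorem result :
    (∃ (N : Type 1) (_ : LSet.Structure N), ZF N ∧ WF4 .s .s N ∧ ¬ AC N) ∧
    ∀ (M : Type u) [LSet.Structure M], ZF M → WO M →
      ∃ (N : Type u) (_ : LSet.Structure N), ZF N ∧ WF4 .s .s N ∧ ¬ AC N := by
  constructor
  · obtain ⟨N, i, h1, h2, -, h3⟩ := Pool.Agent.Y580.exists_modelD_zs
    exact ⟨N, i, h1, (h2 .s).2.2.2, h3⟩
  · intro M _ h hW
    obtain ⟨N, i, h1, h2, -, h3⟩ := Pool.Agent.Y580.exists_modelD M h hW
    exact ⟨N, i, h1, (h2 .s).2.2.2, h3⟩

end Pool.Agent.Results.MP_a078ad_lc.WFss4NotAC
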